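import Pool.Agent.Q291.NL.Law

/-!
# Dependent perturbations of critical bond percolation: the window for the exploration path

Positive probability laws `μ` of the states of finitely many edges of the square lattice for which
opening or closing a single edge changes the weight of any configuration by a factor between
`1 / r` and `r`; no independence and no monotonicity is assumed. At `r = 1` this is critical bond
percolation.

* As long as `(r - 1) / (r + 1)` is at most a small constant times `n ^ (-3/4)`, the probability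
  that there are four alternating arms from an edge to distance `k ≤ n` is of order `k ^ (-5/4)`.
* For the exploration path of such a law on `δ ℤ²` in a rectangle `(-A, B) × (0, H)`, from
  `a = t + i H` to `b = 0` between the wired boundary arc and the free one, the expectation of any
  bounded Lipschitz function of the curve differs from the one at criticality by at most a power
  of `(r - 1) / (r + 1) δ ^ (-3/4)`, plus `δ`.
* In particular this is so for the interface of the self-dual random-cluster model with cluster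
  weight `q`, with `|√q - 1| / (√q + 1)` in place of `(r - 1) / (r + 1)`.

Definitions: `Pool.Agent.H974.Basic` (edges, `RE`, `Reach`), `Pool.Agent.H12R2.Sep.Defs` (`A4`),
`Pool.Agent.Q291.FK.Seq` (`em`, `Law`), `Pool.Agent.H984R4.NP.Model` (`Rect`, `Rect.dm`,
`Rect.curve`), `Pool.Agent.H984R4.NP.Defs` (`Dm`, `Dm.edges`, `Dm.walk`, `Dm.len`, `E`),
`Pool.Agent.Q291.EP.Wk` (`rnd`), `Pool.Agent.Q291.FK.Clus` (`fkw`, `fkz`, `fkm`).
-/

namespace Pool.Agent.Results.MP_fe58d8_pr.DependentPerturbations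

open H974 H12S H984N H984P Q291.EP Q291.FK Q291.NL

/-- Opening or closing one edge changes the weight by a factor between `1 / r` and `r`. -/
def Flip (S : Finset Edg) (μ : Finset Edg → ℝ) (r : ℝ) : Prop :=
  ∀ e ∈ S, ∀ G, G ⊆ S → e ∉ G → μ (insert e G) ≤ r * μ G ∧ μ G ≤ r * μ (insert e G)

/-- The edges of the box of radius `k` around the edge `e`. -/
noncomputable def box (e : Edg) (k : ℕ) : Finset Edg :=
  RE (e.1 - k) (e.1 + k) (e.2.1 - k) (e.2.1 + k)

/-- Four alternating arms from the edge `e` to the boundary of the box of radius `k` around it,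
`F` being the set of open edges. -/
def Four (e : Edg) (k : ℕ) (F : Finset Edg) : Prop :=
  A4 (e.1 - k) (e.1 + k) (e.2.1 - k) (e.2.1 + k) e ↑F

/-- The curves `f` and `g` are within `ρ` after an increasing reparametrisation. -/
def Close (f g : C(unitInterval, ℂ)) (ρ : ℝ) : Prop :=
  ∃ φ : unitInterval ≃o unitInterval, ∀ t, dist (f t) (g (φ t)) ≤ ρ

/-- Bounded by one and Lipschitz for the distance of curves up to reparametrisation. -/
def Test (Φ : C(unitInterval, ℂ) → ℝ) : Prop :=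
  (∀ f, |Φ f| ≤ 1) ∧ ∀ f g ρ, Close f g ρ → |Φ f - Φ g| ≤ ρ

theorem result :
    -- four arms, for all laws whose single edge ratios are between `1 / r` and `r`
    (∃ c C ε : ℝ, 0 < c ∧ 0 < C ∧ 0 < ε ∧ ∀ r : ℝ, 1 ≤ r → ∀ n : ℕ, 1 ≤ n →
      (r - 1) / (r + 1) ≤ ε * (n:ℝ) ^ (-(3/4) : ℝ) → ∀ k : ℕ, 1 ≤ k → k ≤ n →
      ∀ (e : Edg) (S : Finset Edg), box e k ⊆ S → ∀ μ : Finset Edg → ℝ, Law S μ → Flip S μ r →
        c * (k:ℝ) ^ (-(5/4) : ℝ) ≤ Q291.FK.em μ S (fun F => ind (Four e k F)) ∧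
        Q291.FK.em μ S (fun F => ind (Four e k F)) ≤ C * (k:ℝ) ^ (-(5/4) : ℝ)) ∧
    -- the exploration path
    (∀ R : Rect, ∃ C δ0 : ℝ, 0 < C ∧ 0 < δ0 ∧ ∀ δ : ℝ, 0 < δ → δ ≤ δ0 →
      (∀ r : ℝ, 1 ≤ r → ∀ μ : Finset Edg → ℝ, Law (rnd (R.dm δ)) μ → Flip (rnd (R.dm δ)) μ r →
        ∀ Φ : C(unitInterval, ℂ) → ℝ, Test Φ →
        |Q291.FK.em μ (rnd (R.dm δ)) (fun F => Φ (R.curve δ F)) -
          E (R.dm δ).edges (fun F => Φ (R.curve δ F))| ≤
          C * (((r - 1) / (r + 1) * δ ^ (-(3/4) : ℝ)) ^ (24/55 : ℝ) + δ)) ∧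
      -- the self-dual random-cluster model
      (∀ q : ℝ, 0 < q → ∀ Φ : C(unitInterval, ℂ) → ℝ, Test Φ →
        |Q291.FK.em (fkm q (R.dm δ)) (rnd (R.dm δ)) (fun F => Φ (R.curve δ F)) -
          E (R.dm δ).edges (fun F => Φ (R.curve δ F))| ≤
          C * ((|(Real.sqrt q - 1) / (Real.sqrt q + 1)| * δ ^ (-(3/4) : ℝ)) ^ (24/55 : ℝ) +
            δ))) := by
  refine ⟨four_both, fun R => ?_⟩
  obtain ⟨C, δ0, hC, hδ0, h⟩ := curve_near R
  exact ⟨C, δ0, hC, hδ0, fun δ hδ hδ' => ⟨fun r hr μ hμ hN Φ hΦ =>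
    h δ hδ hδ' r hr μ hμ hN Φ hΦ.1 hΦ.2,
    fun q hq Φ hΦ => curve_fk (h δ hδ hδ') hq Φ hΦ.1 hΦ.2⟩⟩

end Pool.Agent.Results.MP_fe58d8_pr.DependentPerturbations
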