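import Pool.Agent.Q289.SI.Top

/-!
# Spatial independence, locality and zero-one laws for the limits of the exploration path

Critical bond percolation on `δ ℤ²` in a rectangle `D = (-A, B) × (0, H)`, with the counterclockwise
boundary arc from `a = t + i H` to `b = 0` wired and the other one dual-wired; `Rect.law δ` is the law
of the exploration path from `a` to `b` as a curve run at constant speed on `[0, 1]` together with
its natural time (number of steps times `δ ^ (7/4)`). Subsequential limits exist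
(`Pool.Agent.Results.MP_fe58d8_pr.NaturalCurve`). The theorem is about all of them.

1. Let `U`, `V` be disjoint open sets. The limit curve, in natural time, stopped when it leaves `U`
   is independent of the reversed limit curve stopped when it leaves `V`. The limit curve is at its
   end points only at its end times. Every event which depends, for every `ε > 0`, only on the first
   `ε` units of natural time has probability 0 or 1; the same for the last `ε` units.
2. Let the laws in the rectangles `R` and `R'` converge along the same meshes, and let `V` be an open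
   set below the top sides and between the lateral sides of both. The reversed limit curves stopped
   when they leave `V` have the same law; near `a` the limit curve is the mirror image of the reversed
   limit curve near `b`.
3. For a given sequence of meshes all germs have one law: the probability (0 or 1) of a germ event at
   `b` is the same for all rectangles for which the laws converge, and the same for the mirror
   image at `a`. In particular there is one deterministic constant `L > 0` such that the local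
   modulus of continuity of all these curves, at both ends, is exactly
   `L h ^ (4/7) (log (1/h)) ^ (3/7)` to the leading order.

Definitions: `Pool.Agent.H984R4.NP.Model` (`Rect`, `pos`, `clamp`, `pl`, `X`, `Rect.dm`,
`Rect.curve`, `Rect.time`, `Rect.law`), `Pool.Agent.H984R4.NP.Defs` (`Dm`, `Dm.edges`, `Dm.wir`,
`Dm.cfg`, `Dm.walk`, `Dm.len`), `Pool.Agent.H984R3.Per.Defs` (states, `ae`, `mv`, `rt`, `nxt`,
`orb`), `Pool.Agent.Q289.SI.Soft` (`cutAt`, `exitT`, `stopX`, `revX`), `Pool.Agent.Q289.SI.Germ`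
(`firstX`, `sigF`, `sigL`), `Pool.Agent.Q289.SI.Loc` (`below`), `Pool.Agent.Q289.SI.ReflLoc` (`rfR`,
`mir`) and `Pool.Agent.Q289.SI.Mod` (`LocMod`).
-/

set_option autoImplicit false

namespace Pool.Agent.Results.MP_fe58d8_pr.GermLaws

open H984N MeasureTheory Filter Topology ProbabilityTheory Pool.Agent.Q289.SI

theorem result :
    (∀ (R : Rect) (δ : ℕ → ℝ), (∀ i, 0 < δ i) → Tendsto δ atTop (𝓝 0) →
      ∀ μ : ProbabilityMeasure X, Tendsto (fun i => R.law (δ i)) atTop (𝓝 μ) →
        (∀ U V : Set ℂ, IsOpen U → IsOpen V → Disjoint U V →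
          IndepFun (stopX U) (fun p => stopX V (revX p)) (μ : Measure X)) ∧
        (∀ᵐ p ∂(μ : Measure X), (∀ s : unitInterval, s < 1 → p.1 s ≠ 0) ∧
          ∀ s : unitInterval, 0 < s → p.1 s ≠ R.a) ∧
        (∀ A : Set X, (∀ ε : ℝ, 0 < ε → MeasurableSet[sigF ε] A) →
          (μ : Measure X) A = 0 ∨ (μ : Measure X) A = 1) ∧
        (∀ A : Set X, (∀ ε : ℝ, 0 < ε → MeasurableSet[sigL ε] A) →
          (μ : Measure X) A = 0 ∨ (μ : Measure X) A = 1)) ∧
    (∀ (R R' : Rect) (δ : ℕ → ℝ), (∀ i, 0 < δ i) → Tendsto δ atTop (𝓝 0) →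
      ∀ μ μ' : ProbabilityMeasure X, Tendsto (fun i => R.law (δ i)) atTop (𝓝 μ) →
        Tendsto (fun i => R'.law (δ i)) atTop (𝓝 μ') → ∀ V : Set ℂ, IsOpen V → V ⊆ below R' →
        (V ⊆ below R → (μ : Measure X).map (fun p => stopX V (revX p)) =
          (μ' : Measure X).map (fun p => stopX V (revX p))) ∧
        (V ⊆ below (rfR R) → (μ : Measure X).map (fun p => stopX V (mir ⟨-R.t, R.H⟩ p)) =
          (μ' : Measure X).map (fun p => stopX V (revX p)))) ∧
    (∀ δ : ℕ → ℝ, (∀ i, 0 < δ i) → Tendsto δ atTop (𝓝 0) →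
      (∃ q : Set X → ENNReal, ∀ A : Set X, (∀ ε : ℝ, 0 < ε → MeasurableSet[sigF ε] A) →
        (q A = 0 ∨ q A = 1) ∧ ∀ (R : Rect) (μ : ProbabilityMeasure X),
          Tendsto (fun i => R.law (δ i)) atTop (𝓝 μ) → (μ : Measure X).map revX A = q A ∧
            (μ : Measure X).map (mir ⟨-R.t, R.H⟩) A = q A) ∧
      ∃ L : ℝ, 0 < L ∧ ∀ (R : Rect) (μ : ProbabilityMeasure X),
        Tendsto (fun i => R.law (δ i)) atTop (𝓝 μ) →
          LocMod L (μ : Measure X) ∧ LocMod L ((μ : Measure X).map revX)) := by
  refine ⟨fun R δ hδ hlim μ hμ => ⟨fun U V hU hV hUV => spatial_indep R hδ hlim hμ hU hV hUV, ?_,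
    fun A hA => zero_one_start R hδ hlim hμ hA, fun A hA => zero_one_end R hδ hlim hμ hA⟩,
    fun R R' δ hδ hlim μ μ' hμ hμ' V hV hVR' => ⟨fun hVR => locality R R' hδ hlim hμ hμ' hV hVR hVR',
      fun hVR => locality_refl R R' hδ hlim hμ hμ' hV hVR hVR'⟩, fun δ hδ hlim => ?_⟩
  · filter_upwards [simple_ends R hδ hlim hμ] with p hp
    exact ⟨hp.2.2.2.1, hp.2.2.2.2⟩
  by_cases hex : ∃ (R0 : Rect) (μ0 : ProbabilityMeasure X),
    Tendsto (fun i => R0.law (δ i)) atTop (𝓝 μ0)
  swap
  · refine ⟨⟨fun _ => 0, fun A _ => ⟨Or.inl rfl, fun R μ hμ => ?_⟩⟩, 1, one_pos, fun R μ hμ => ?_⟩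
    · exact absurd ⟨R, μ, hμ⟩ hex
    · exact absurd ⟨R, μ, hμ⟩ hex
  obtain ⟨R0, μ0, hμ0⟩ := hex
  refine ⟨⟨fun A => (μ0 : Measure X).map revX A, fun A hA =>
    ⟨zero_one_rev R0 hδ hlim hμ0 hA, fun R μ hμ => ⟨germ_end R hδ hlim hμ R0 hμ0 hA,
      germ_start R hδ hlim hμ R0 hμ0 hA⟩⟩⟩, ?_⟩
  obtain ⟨c, C, hc, hC, h1, h0⟩ := AK_bounds R0 hδ hlim hμ0
  have hgerm : ∀ K ε : ℝ, 0 < ε → MeasurableSet[sigF ε] (AK K) := fun K ε hε => AK_germ K hε
  have hAm : ∀ K, MeasurableSet (AK K) := by
    intro K
    obtain ⟨B, hB, hBA⟩ := AK_germ K (ε := 1) one_pos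
    rw [← hBA]
    exact (firstX_meas 1) hB
  obtain ⟨S, hS⟩ : ∃ S : Set ℝ, S = {K | (μ0 : Measure X).map revX (AK K) = 1} := ⟨_, rfl⟩
  have hCS : C ∈ S := by rw [hS]; exact h1
  have hlow : ∀ K ∈ S, c ≤ K := by
    intro K hK
    by_contra hcon
    rw [hS] at hK
    have h2 := h0 K (not_le.1 hcon)
    have h3 : (μ0 : Measure X).map revX (AK K) = 1 := hK
    rw [h2] at h3
    exact zero_ne_one h3
  have hbdd : BddBelow S := ⟨c, hlow⟩
  have hL : c ≤ sInf S := le_csInf ⟨C, hCS⟩ hlow
  have up : ∀ K : ℝ, sInf S < K → (μ0 : Measure X).map revX (AK K) = 1 := by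
    intro K hK
    obtain ⟨K', hK', hlt⟩ := (csInf_lt_iff hbdd ⟨C, hCS⟩).1 hK
    rw [hS] at hK'
    have i1 : IsProbabilityMeasure ((μ0 : Measure X).map revX) :=
      Measure.isProbabilityMeasure_map revX_cont.measurable.aemeasurable
    refine le_antisymm prob_le_one ?_
    have h2 : (μ0 : Measure X).map revX (AK K') = 1 := hK'
    rw [← h2]
    exact measure_mono (AK_mono hlt.le)
  have lo : ∀ K : ℝ, K < sInf S → (μ0 : Measure X).map revX (AK K) = 0 := by
    intro K hK
    rcases zero_one_rev R0 hδ hlim hμ0 (hgerm K) with h | h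
    · exact h
    · have : K ∈ S := by rw [hS]; exact h
      exact absurd (csInf_le hbdd this) (not_le.2 hK)
  refine ⟨sInf S, lt_of_lt_of_le hc hL, fun R μ hμ => ⟨?_, ?_⟩⟩
  · -- at the start
    have key : ∀ K : ℝ, (μ : Measure X) (AK K) = (μ0 : Measure X).map revX (AK K) := by
      intro K
      rw [← germ_start R hδ hlim hμ R0 hμ0 (hgerm K),
        Measure.map_apply (mir_cont _).measurable (hAm K)]
      congr 1
      ext p
      exact (AK_mir K _ p).symm
    apply locMod_of
    · filter_upwards [simple_ends R hδ hlim hμ] with p hp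
      exact hp.1
    · intro K hK
      rw [key, up K hK]
    · intro K hK
      rw [key, lo K hK]
  · have i1 : IsProbabilityMeasure ((μ : Measure X).map revX) :=
      Measure.isProbabilityMeasure_map revX_cont.measurable.aemeasurable
    apply locMod_of
    · filter_upwards [rev_start R hδ hlim hμ] with p hp
      exact hp.1
    · intro K hK
      rw [germ_end R hδ hlim hμ R0 hμ0 (hgerm K), up K hK]
    · intro K hK
      rw [germ_end R hδ hlim hμ R0 hμ0 (hgerm K), lo K hK]

end Pool.Agent.Results.MP_fe58d8_pr.GermLaws
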