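import Pool.Agent.Q292.Lil.Main

/-!
Critical bond percolation on the square lattice: the law of the iterated logarithm for the number
of nested layers around the origin (the one-point nesting statistics of the full scaling limit
CLE₆), with the exact constant, and the set of all limit points.

`changes n ω` is the minimal number of colour changes of a path from the origin to the distance `n`,
i.e. the number of nested alternating (open / dual-open) layers around the origin.

Definitions (in `Pool.Agent.H974R2.Model`, `Pool.Agent.H974R2.Infinite`,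
`Pool.Agent.H863R2.NL.Defs`): `sqLattice`, `bondLaw`, `hlf` (`= 1/2`), `openGraph`; `Pt`, `Corner`,
`Free`, `Change`, `ReachIn`, `norm2`, `changes`.
-/

namespace Pool.Agent.Results.MP_fe58d8_pr.IteratedLogarithm

open MeasureTheory H974 Filter Real
open Pool.Agent.H863R2.NL (changes cN vN)
open scoped Topology

/-- the normalised fluctuation of the number of layers up to the distance `n` -/
noncomputable def fluct (n : ℕ) (ω : sqLattice.edgeSet → Bool) : ℝ :=
  ((changes n ω : ℝ) - log n / (2 * √3 * π)) /
    √((4 / (3 * √3 * π) - 1 / π ^ 2) * log n * log (log (log n)))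

theorem result : ∀ᵐ ω ∂(bondLaw hlf),
    limsup (fun n : ℕ => fluct n ω) atTop = 1 ∧
    liminf (fun n : ℕ => fluct n ω) atTop = -1 ∧
    ∀ x : ℝ, MapClusterPt x atTop (fun n : ℕ => fluct n ω) ↔ x ∈ Set.Icc (-1 : ℝ) 1 := by
  have e : ∀ (ω : sqLattice.edgeSet → Bool), (fun n : ℕ => fluct n ω) =
      fun n : ℕ => ((changes n ω : ℝ) - cN * log n) / Q292.Lil.ph vN (log n) := by
    intro ω
    funext n
    unfold fluct Q292.Lil.ph
    have e1 : cN * log (n : ℝ) = log n / (2 * √3 * π) := by
      unfold cN
      ring
    have e2 : 2 * vN = 4 / (3 * √3 * π) - 1 / π ^ 2 := by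
      unfold vN
      ring
    rw [e1, e2]
  filter_upwards [Q292.Lil.main] with ω hω
  rw [e ω]
  exact hω

end Pool.Agent.Results.MP_fe58d8_pr.IteratedLogarithm
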