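import Pool.Agent.Q291.EP.Tv
import Pool.Agent.Q291.EP.Law
import Pool.Agent.Q291.EP.Coll
import Pool.Agent.Q291.EP.Nd
import Pool.Agent.H984R3.Per.UpPi
import Pool.Agent.H984R3.Per.LowEV
import Pool.Agent.H985R3.TA.Main
import Pool.Agent.H985R3.TA.STA

/-!
# The two near-critical windows of the exploration path of bond percolation on `ℤ²`

Bond percolation with parameter `p` on `δ ℤ²` in a rectangle `(-A, B) × (0, H)`, exploration path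
from `a = t + i H` to `b = 0` between the wired boundary arc and the free (dual-wired) one. The
path at `p` is compared with the path at `p = 1/2`.

* The distance in total variation between the laws of the discrete paths is of order
  `min (1, |p - 1/2| δ ^ (-7/8))`, and beyond this window the two laws are asymptotically
  mutually singular.
* For the metric of curves up to reparametrisation the window is `|p - 1/2| ≍ δ ^ (3/4)`: inside,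
  the bounded Lipschitz distance between the laws of the curves tends to zero; outside, the curve
  at `p > 1/2` stays near the free boundary arc, the curve at `p < 1/2` near the wired boundary
  arc, whereas at `p = 1/2` it has, with probability bounded below, points far from each of them.

Definitions: `Pool.Agent.H984R4.NP.Model` (`Rect`, `Rect.dm`, `pos`, `Rect.curve`),
`Pool.Agent.H984R4.NP.Defs` (`Dm`, `Dm.edges`, `Dm.cfg`, `Dm.walk`, `Dm.len`),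
`Pool.Agent.H984R3.Per.Defs` (states, `nxt`, `orb`), `Pool.Agent.H974R2.Basic` (`Pr`, `Ex`),
`Pool.Agent.Q291.EP.Wk` (`path`), `Pool.Agent.Q291.EP.Tv` (`prp`), `Pool.Agent.Q291.EP.Curve`
(`Fr`), `Pool.Agent.Q291.EP.Law` (`exq`), `Pool.Agent.Q291.EP.Coll` (`arcF`, `arcW`).
-/

namespace Pool.Agent.Results.MP_fe58d8_pr.NearCriticalWindows

open H984N H984P Q291.EP

/-- The arm bounds in the form used below. -/
theorem inputs : (∃ c : ℝ, 0 < c ∧ H984P.LowA c (1/4)) ∧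
    (∃ C : ℝ, 0 < C ∧ H342P.TwoUp C (1/4)) ∧ (∃ C : ℝ, 0 < C ∧ AnnUp C) := by
  refine ⟨?_, ?_, ?_⟩
  · obtain ⟨B, m0, κ, hκ, h⟩ := H985T.EV_lower
    obtain ⟨c, hc, h2⟩ := H984P.lowA_of_EV (B := B) (m0 := m0) (s := 1/4) hκ (by norm_num)
      (fun m hm => by
        obtain ⟨ρ, c, s, c', f0, h1, h2, h3⟩ := h m hm
        exact ⟨ρ, c, s, c', f0, h2, h1, h3⟩)
    exact ⟨c, hc, h2⟩
  · obtain ⟨C, hC, h⟩ := H985T.pi2_upper
    exact ⟨C, hC, H984P.twoUp_of_pi2 hC (by norm_num) h⟩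
  · obtain ⟨C, hC, h⟩ := H985T.st_A
    exact ⟨C, hC, fun r R hr hR c1 c2 S => h r R hr hR c1 c2 S⟩

theorem many_steps (R : Rect) : ∀ ε : ℝ, 0 < ε → ∃ Λ δ0 : ℝ, 0 < Λ ∧ 0 < δ0 ∧
    ∀ δ : ℝ, 0 < δ → δ ≤ δ0 → 1 - ε ≤ R.prob δ (fun F => 1 / Λ ≤ R.time δ F) := by
  obtain ⟨⟨c, hc, hL⟩, ⟨C, hC, hU⟩, C2, hC2, hA⟩ := inputs
  intro ε hε
  obtain ⟨Λ, δ0, h1, h2, h3⟩ := (final_of hc hC hL hU hC2 hA R).1 (1/2) ε (by norm_num)
    (by norm_num) hε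
  refine ⟨Λ, δ0, h1, h2, fun δ hδ hδ' => (h3 δ hδ hδ').trans ?_⟩
  exact H974.Pr_mono (okp (by norm_num) (by norm_num)) (fun F _ hF => hF.1.1)

theorem result (R : Rect) :
    -- the window of the discrete path
    (∃ c C δ0 : ℝ, 0 < c ∧ 0 < C ∧ 0 < δ0 ∧ ∀ δ : ℝ, 0 < δ → δ ≤ δ0 →
      ∀ p : ℝ, 0 ≤ p → p ≤ 1 →
      (∀ B : Set (ℕ → St), |prp R p δ (fun F => path (R.dm δ) F ∈ B) -
        prp R (1/2) δ (fun F => path (R.dm δ) F ∈ B)| ≤ C * (|p - 1/2| * δ ^ (-(7/8) : ℝ))) ∧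
      ∃ B : Set (ℕ → St), c * min 1 (|p - 1/2| * δ ^ (-(7/8) : ℝ)) ≤
        prp R p δ (fun F => path (R.dm δ) F ∈ B) -
          prp R (1/2) δ (fun F => path (R.dm δ) F ∈ B)) ∧
    (∀ ε : ℝ, 0 < ε → ∃ K δ0 : ℝ, 0 < K ∧ 0 < δ0 ∧ ∀ δ : ℝ, 0 < δ → δ ≤ δ0 →
      ∀ p : ℝ, 0 ≤ p → p ≤ 1 → K ≤ |p - 1/2| * δ ^ (-(7/8) : ℝ) →
      ∃ B : Set (ℕ → St), 1 - ε ≤ prp R p δ (fun F => path (R.dm δ) F ∈ B) ∧
        prp R (1/2) δ (fun F => path (R.dm δ) F ∈ B) ≤ ε) ∧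
    -- the window of the curve
    (∃ C δ0 : ℝ, 0 < C ∧ 0 < δ0 ∧ ∀ δ : ℝ, 0 < δ → δ ≤ δ0 →
      ∀ p : ℝ, 0 ≤ p → p ≤ 1 → ∀ Φ : C(unitInterval, ℂ) → ℝ, (∀ f, |Φ f| ≤ 1) →
      (∀ f g ρ, Fr f g ρ → |Φ f - Φ g| ≤ ρ) →
      |exq R p δ Φ - exq R (1/2) δ Φ| ≤
        C * ((|p - 1/2| * δ ^ (-(3/4) : ℝ)) ^ (24/55 : ℝ) + δ)) ∧
    (∃ c C δ0 : ℝ, 0 < c ∧ 0 < C ∧ 0 < δ0 ∧ ∀ δ : ℝ, 0 < δ → δ ≤ δ0 →
      ∀ ε : ℝ, 0 < ε → ε ≤ 1 → ∀ p : ℝ, 0 ≤ p → p ≤ 1 →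
      (1/2 ≤ p → prp R p δ (fun F => ∃ s : unitInterval, ∀ z ∈ arcF R,
        ε ≤ dist (R.curve δ F s) z) ≤
        C * (ε ^ 2)⁻¹ * Real.exp (-(c * ε * (|p - 1/2| * δ ^ (-(3/4) : ℝ)) ^ (4/3 : ℝ)))) ∧
      (p ≤ 1/2 → prp R p δ (fun F => ∃ s : unitInterval, ∀ z ∈ arcW R,
        ε ≤ dist (R.curve δ F s) z) ≤
        C * (ε ^ 2)⁻¹ * Real.exp (-(c * ε * (|p - 1/2| * δ ^ (-(3/4) : ℝ)) ^ (4/3 : ℝ))))) ∧
    (∃ c δ0 : ℝ, 0 < c ∧ 0 < δ0 ∧ ∀ δ : ℝ, 0 < δ → δ ≤ δ0 →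
      c ≤ prp R (1/2) δ (fun F => ∃ s : unitInterval, ∀ z ∈ arcF R,
        c ≤ dist (R.curve δ F s) z) ∧
      c ≤ prp R (1/2) δ (fun F => ∃ s : unitInterval, ∀ z ∈ arcW R,
        c ≤ dist (R.curve δ F s) z)) := by
  obtain ⟨-, ⟨C, hC, hU⟩, -⟩ := inputs
  obtain ⟨C', hC', hlen⟩ := len_moment hC hU
  have ht := many_steps R
  exact ⟨window hC' hlen R ht, fun ε hε => window_sing R ht hε, law_stab R, collapse R, nondeg R⟩

end Pool.Agent.Results.MP_fe58d8_pr.NearCriticalWindows
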